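import Pool.Agent.Q156.GeomCirc

/-!
# Edges of geometric graphs forced to meet one line: `f(n,k)` up to an additive error `O(k)`

For `k ≥ 1` put `M = 2 ⌊(k-1)/2⌋` and let `s` be the integer with `s (s+1) ≤ M < (s+1)(s+2)`.
Then `f(n,k) = n (M + s (s+1)) / (2 (s+1)) + O(k)`, with explicit constants, for all `n` and `k`.
-/

open Finset Filter Topology

namespace Pool.Agent.Results.MP_b5bf4a_co.LinearGrowth

open Q156.LC

/-- Every geometric graph on `n` points with at least `e` edges has a line `a x + b y = c` meeting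
(the relative interiors of) at least `k` of its edges. -/
def Forces (n k e : ℕ) : Prop :=
  ∀ (P : Finset (ℝ × ℝ)) (E : Finset (Sym2 (ℝ × ℝ))), IsGeometricGraph P E → P.card = n →
    e ≤ E.card → ∃ a b c : ℝ, (a, b) ≠ (0, 0) ∧ k ≤ met E a b c

/-- The function `f(n,k)` of the problem: the least `e` with `Forces n k e`. -/
noncomputable def f (n k : ℕ) : ℕ := sInf {e | Forces n k e}

/-- The number `(M + s (s+1)) / (2 (s+1))` with `M = 2 ⌊(k-1)/2⌋`. -/
noncomputable def slope (k s : ℕ) : ℝ := ((2 * ((k - 1) / 2) : ℕ) + (s : ℝ) * (s + 1)) / (2 * (s + 1))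

/-- `s` is the integer with `s (s+1) ≤ M < (s+1)(s+2)`, where `M = 2 ⌊(k-1)/2⌋`. -/
def IsIndex (k s : ℕ) : Prop :=
  s * (s + 1) ≤ 2 * ((k - 1) / 2) ∧ 2 * ((k - 1) / 2) < (s + 1) * (s + 2)

theorem existsUnique_index (k : ℕ) : ∃! s, IsIndex k s := by
  classical
  have hex : ∃ t, 2 * ((k - 1) / 2) < (t + 1) * (t + 2) := by
    generalize 2 * ((k - 1) / 2) = M
    exact ⟨M, by nlinarith⟩
  refine ⟨Nat.find hex, ⟨?_, Nat.find_spec hex⟩, ?_⟩
  · rcases Nat.eq_zero_or_pos (Nat.find hex) with h | h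
    · rw [h]; simp
    · have := Nat.find_min hex (Nat.sub_lt h one_pos)
      rw [not_lt] at this
      obtain ⟨t, ht⟩ : ∃ t, Nat.find hex = t + 1 := ⟨Nat.find hex - 1, by omega⟩
      rw [ht] at this ⊢
      simpa using this
  · rintro s ⟨h1, h2⟩
    have h3 : Nat.find hex ≤ s := Nat.find_le h2
    by_contra hne
    have h4 : Nat.find hex + 1 ≤ s := by omega
    have h5 := Nat.find_spec hex
    have h6 : (Nat.find hex + 1) * (Nat.find hex + 2) ≤ s * (s + 1) :=
      Nat.mul_le_mul h4 (by omega)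
    omega

theorem upper_forces {n k s : ℕ} (hk : 1 ≤ k) {e : ℕ}
    (he : (n : ℝ) * slope k s + 2 * (k - 1) < e) : Forces n k e := by
  intro P E hG hP hE
  by_contra hcon
  push Not at hcon
  have h := upper hG (K := k - 1) (m := (k - 1) / 2) (by omega)
    (fun a b c hab => by have := hcon a b c hab; omega) (s + 1)
  rw [hP, Nat.add_sub_cancel] at h
  have h' : (2 * ((s : ℝ) + 1)) * E.card ≤
      n * ((2 * ((k - 1) / 2) : ℕ) + (s + 1) * s) + 4 * (s + 1) * (k - 1) := by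
    have h2 : ((2 * (s + 1) * E.card : ℕ) : ℝ) ≤
        ((n * (2 * ((k - 1) / 2) + (s + 1) * s) + 4 * (s + 1) * (k - 1) : ℕ) : ℝ) := by
      exact_mod_cast h
    have h3 : ((k - 1 : ℕ) : ℝ) = k - 1 := by push_cast [Nat.cast_sub hk]; ring
    rw [Nat.cast_add, Nat.cast_mul (4 * (s + 1)), h3] at h2
    push_cast at h2 ⊢
    linarith
  have hpos : (0 : ℝ) < 2 * ((s : ℝ) + 1) := by positivity
  have hE' : (e : ℝ) ≤ E.card := by exact_mod_cast hE
  have h4 : (n : ℝ) * slope k s + 2 * (k - 1) < E.card := lt_of_lt_of_le he hE'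
  have h5 : (2 * ((s : ℝ) + 1)) * ((n : ℝ) * slope k s + 2 * (k - 1)) =
      n * ((2 * ((k - 1) / 2) : ℕ) + (s + 1) * s) + 4 * (s + 1) * (k - 1) := by
    unfold slope
    field_simp
    ring
  have h6 := mul_lt_mul_of_pos_left h4 hpos
  linarith

theorem forces_nonempty {n k : ℕ} (hk : 1 ≤ k) : {e | Forces n k e}.Nonempty := by
  obtain ⟨e, he⟩ := exists_nat_gt ((n : ℝ) * slope k 0 + 2 * (k - 1))
  exact ⟨e, upper_forces (s := 0) hk he⟩

theorem f_le {n k s : ℕ} (hk : 1 ≤ k) : (f n k : ℝ) ≤ n * slope k s + 2 * k - 1 := by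
  set x : ℝ := (n : ℝ) * slope k s + 2 * (k - 1) with hx
  have hx0 : 0 ≤ x := by
    have h1 : (0 : ℝ) ≤ slope k s := by unfold slope; positivity
    have h2 : (1 : ℝ) ≤ k := by exact_mod_cast hk
    have h3 : (0 : ℝ) ≤ n * slope k s := by positivity
    rw [hx]; linarith
  have h1 : f n k ≤ ⌊x⌋₊ + 1 := Nat.sInf_le (upper_forces (s := s) hk (by
    push_cast; exact Nat.lt_floor_add_one x))
  have h2 : (f n k : ℝ) ≤ ⌊x⌋₊ + 1 := by exact_mod_cast h1
  have h3 := Nat.floor_le hx0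
  rw [hx] at h3
  linarith

theorem le_f {n k s : ℕ} (hk : 1 ≤ k) (hs : IsIndex k s) :
    (n : ℝ) * slope k s + 2 - k ≤ f n k := by
  obtain ⟨hs1, hs2⟩ := hs
  obtain ⟨u, hu⟩ : ∃ u, s * (s + 1) = 2 * u := by
    obtain ⟨u, hu⟩ := Nat.even_mul_succ_self s
    exact ⟨u, by omega⟩
  set m := (k - 1) / 2 with hm
  set c := m - u with hc
  have hcu : u + c = m := by omega
  have hcs : c ≤ s := by
    have : (s + 1) * (s + 2) = s * (s + 1) + 2 * s + 2 := by ring
    omega
  classical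
  have hcard := card_idx_ge n s c hcs
  have hforce : Forces n k (f n k) := Nat.sInf_mem (forces_nonempty hk)
  have hlt : (edg n s c).card < f n k := by
    by_contra hcon
    obtain ⟨a, b, c0, hab, h⟩ := hforce _ _ (isGeom n s c) (card_pts n) (not_lt.1 hcon)
    have h2 := met_le n s c a b c0 hab
    omega
  rw [card_edg] at hlt
  have h1 : ((idx n s c).card : ℝ) + 1 ≤ f n k := by exact_mod_cast hlt
  have h2 : (n : ℝ) * ((2 * m : ℕ) + (s : ℝ) * (s + 1)) ≤
      2 * (s + 1) * (idx n s c).card + 2 * (s + 1) * (2 * m : ℕ) := by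
    have e1 : 2 * (s * (s + 1)) + 2 * c = 2 * m + s * (s + 1) := by omega
    have e2 : s * (s + 1) + 2 * c = 2 * m := by omega
    rw [e1, e2] at hcard
    exact_mod_cast hcard
  have hpos : (0 : ℝ) < 2 * ((s : ℝ) + 1) := by positivity
  have h3 : (n : ℝ) * slope k s ≤ (idx n s c).card + (2 * m : ℕ) := by
    unfold slope
    rw [← mul_div_assoc, div_le_iff₀ hpos]
    linarith
  have h4 : ((2 * m : ℕ) : ℝ) ≤ k - 1 := by
    have : 2 * m + 1 ≤ k := by omega
    have : ((2 * m + 1 : ℕ) : ℝ) ≤ k := by exact_mod_cast this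
    push_cast at this ⊢
    linarith
  linarith

theorem slope_sub_sqrt {k s : ℕ} (hk : 3 ≤ k) (hs : IsIndex k s) :
    |slope k s - √k| ≤ 1 := by
  obtain ⟨hs1, hs2⟩ := hs
  have hs3 : 1 ≤ s := by
    by_contra h
    have : s = 0 := by omega
    subst this
    omega
  have hpos : (0 : ℝ) < 2 * ((s : ℝ) + 1) := by positivity
  set M := 2 * ((k - 1) / 2) with hM
  have hM1 : M + 1 ≤ k := by omega
  have hM2 : k ≤ M + 2 := by omega
  have hM3 : M + 2 ≤ (s + 1) * (s + 2) := by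
    obtain ⟨u, hu⟩ := Nat.even_mul_succ_self (s + 1)
    have : (s + 1) * (s + 2) = u + u := hu
    omega
  have r1 : ((s : ℝ)) * (s + 1) ≤ M := by exact_mod_cast hs1
  have r2 : (M : ℝ) + 1 ≤ k := by exact_mod_cast hM1
  have r3 : (k : ℝ) ≤ M + 2 := by exact_mod_cast hM2
  have r4 : (M : ℝ) + 2 ≤ (s + 1) * (s + 2) := by exact_mod_cast hM3
  have hsl : slope k s = ((M : ℝ) + s * (s + 1)) / (2 * (s + 1)) := rfl
  have hs0 : (0 : ℝ) ≤ s := Nat.cast_nonneg s
  rw [hsl, abs_le]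
  constructor
  · -- √k ≤ slope + 1
    have h1 : √(k : ℝ) ≤ ((M : ℝ) + s * (s + 1)) / (2 * (s + 1)) + 1 := by
      rw [Real.sqrt_le_left (by positivity)]
      have h2 : ((M : ℝ) + s * (s + 1)) / (2 * (s + 1)) + 1 =
          ((M : ℝ) + (s + 2) * (s + 1)) / (2 * (s + 1)) := by field_simp; ring
      rw [h2, div_pow, le_div_iff₀ (by positivity)]
      have hs3' : (1 : ℝ) ≤ s := by exact_mod_cast hs3
      obtain ⟨c, hc⟩ : ∃ c : ℝ, (M : ℝ) = s * (s + 1) + 2 * c :=
        ⟨((M : ℝ) - s * (s + 1)) / 2, by ring⟩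
      have h5 : (k : ℝ) * (2 * (s + 1)) ^ 2 ≤ ((M : ℝ) + 2) * (2 * (s + 1)) ^ 2 :=
        mul_le_mul_of_nonneg_right r3 (by positivity)
      have h6 : ((M : ℝ) + (s + 2) * (s + 1)) ^ 2 - ((M : ℝ) + 2) * (2 * (s + 1)) ^ 2 =
          4 * ((s + 1) ^ 2 * (s - 1) + c ^ 2) := by rw [hc]; ring
      have h7 : (0 : ℝ) ≤ (s + 1) ^ 2 * (s - 1) := mul_nonneg (by positivity) (by linarith)
      nlinarith [sq_nonneg c]
    linarith
  · -- slope - 1 ≤ √k
    have h1 : ((M : ℝ) + s * (s + 1)) / (2 * (s + 1)) - 1 ≤ √(k : ℝ) := by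
      apply Real.le_sqrt_of_sq_le
      have h2 : ((M : ℝ) + s * (s + 1)) / (2 * (s + 1)) - 1 ≤ s := by
        rw [sub_le_iff_le_add, div_le_iff₀ hpos]
        nlinarith
      have h3 : (-1 : ℝ) ≤ ((M : ℝ) + s * (s + 1)) / (2 * (s + 1)) - 1 := by
        have : (0 : ℝ) ≤ ((M : ℝ) + s * (s + 1)) / (2 * (s + 1)) := by positivity
        linarith
      rcases le_or_gt 0 (((M : ℝ) + s * (s + 1)) / (2 * (s + 1)) - 1) with h | h
      · have : (((M : ℝ) + s * (s + 1)) / (2 * (s + 1)) - 1) ^ 2 ≤ (s : ℝ) ^ 2 :=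
          pow_le_pow_left₀ h h2 2
        nlinarith
      · have : (((M : ℝ) + s * (s + 1)) / (2 * (s + 1)) - 1) ^ 2 ≤ 1 := by nlinarith
        have : (1 : ℝ) ≤ k := by exact_mod_cast (by omega : 1 ≤ k)
        linarith
    linarith

/-- **Theorem.** -/
theorem result :
    -- the bounds for all `n` and all `k ≥ 1`
    (∀ n k s : ℕ, 1 ≤ k → IsIndex k s →
      (n : ℝ) * slope k s + 2 - k ≤ f n k ∧ (f n k : ℝ) ≤ n * slope k s + 2 * k - 1) ∧
    -- hence `f(n,k) = n √k + O(n + k)`, for all `n` and all `k ≥ 3`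
    (∀ n k : ℕ, 3 ≤ k → |(f n k : ℝ) - n * √k| ≤ n + 2 * k) ∧
    -- and the exact growth rate in `n` for every fixed `k`
    (∀ k s : ℕ, 1 ≤ k → IsIndex k s →
      Tendsto (fun n : ℕ => (f n k : ℝ) / n) atTop (𝓝 (slope k s))) ∧
    -- the index `s` exists and is unique
    (∀ k : ℕ, ∃! s, IsIndex k s) := by
  refine ⟨fun n k s hk hs => ⟨le_f hk hs, f_le hk⟩, ?_, ?_, existsUnique_index⟩
  · intro n k hk
    obtain ⟨s, hs, -⟩ := existsUnique_index k
    have hk1 : 1 ≤ k := by omega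
    have h1 := le_f (n := n) hk1 hs
    have h2 := f_le (n := n) (s := s) hk1
    have h3 := abs_le.1 (slope_sub_sqrt hk hs)
    have hn : (0 : ℝ) ≤ n := Nat.cast_nonneg n
    have hk' : (1 : ℝ) ≤ k := by exact_mod_cast hk1
    rw [abs_le]
    constructor
    · nlinarith [mul_le_mul_of_nonneg_left h3.1 hn]
    · nlinarith [mul_le_mul_of_nonneg_left h3.2 hn]
  · intro k s hk hs
    have l1 : Tendsto (fun n : ℕ => slope k s + (2 - k : ℝ) / n) atTop (𝓝 (slope k s + 0)) :=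
      tendsto_const_nhds.add (tendsto_const_div_atTop_nhds_zero_nat _)
    have l2 : Tendsto (fun n : ℕ => slope k s + (2 * k - 1 : ℝ) / n) atTop (𝓝 (slope k s + 0)) :=
      tendsto_const_nhds.add (tendsto_const_div_atTop_nhds_zero_nat _)
    rw [add_zero] at l1 l2
    refine tendsto_of_tendsto_of_tendsto_of_le_of_le' l1 l2 ?_ ?_
    · filter_upwards [eventually_gt_atTop 0] with n hn
      have hn' : (0 : ℝ) < n := by exact_mod_cast hn
      have h1 := le_f (n := n) hk hs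
      rw [le_div_iff₀ hn', add_mul, div_mul_cancel₀ _ hn'.ne']
      linarith
    · filter_upwards [eventually_gt_atTop 0] with n hn
      have hn' : (0 : ℝ) < n := by exact_mod_cast hn
      have h1 := f_le (n := n) (s := s) hk
      rw [div_le_iff₀ hn', add_mul, div_mul_cancel₀ _ hn'.ne']
      linarith

end Pool.Agent.Results.MP_b5bf4a_co.LinearGrowth
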